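import Pool.Agent.Nij.Necess

/-!
# Compactly supported Nijenhuis operators of prescribed algebraic type

An algebraic type is realisable if and only if all its eigenvalues are real.
-/

namespace Pool.Agent.Results.MP_17a4b7_gt.NijenhuisTypes

open scoped ContDiff
open VectorField

noncomputable section

/-- A smooth field of endomorphisms of `ℝⁿ`, written as a field of matrices. -/
def SmoothField {n : ℕ} (L : (Fin n → ℝ) → Matrix (Fin n) (Fin n) ℝ) : Prop :=
  ∀ i j, ContDiff ℝ ∞ fun x => L x i j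

/-- The vector field `L v`. -/
def app {n : ℕ} (L : (Fin n → ℝ) → Matrix (Fin n) (Fin n) ℝ)
    (v : (Fin n → ℝ) → (Fin n → ℝ)) : (Fin n → ℝ) → (Fin n → ℝ) :=
  fun x => (L x).mulVec (v x)

/-- The Nijenhuis torsion `N_L(v,w) = [Lv,Lw] - L([Lv,w] + [v,Lw]) + L²[v,w]`. -/
def torsion {n : ℕ} (L : (Fin n → ℝ) → Matrix (Fin n) (Fin n) ℝ)
    (v w : (Fin n → ℝ) → (Fin n → ℝ)) (x : Fin n → ℝ) : Fin n → ℝ :=
  lieBracket ℝ (app L v) (app L w) x
    - (L x).mulVec (lieBracket ℝ (app L v) w x + lieBracket ℝ v (app L w) x)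
    + (L x * L x).mulVec (lieBracket ℝ v w x)

/-- `L` is a Nijenhuis operator: smooth with identically vanishing torsion. -/
def IsNijenhuis {n : ℕ} (L : (Fin n → ℝ) → Matrix (Fin n) (Fin n) ℝ) : Prop :=
  SmoothField L ∧ ∀ v w : (Fin n → ℝ) → (Fin n → ℝ), ContDiff ℝ ∞ v → ContDiff ℝ ∞ w →
    ∀ x, torsion L v w x = 0

/-- The complexification of a real matrix. -/
def cx {n : ℕ} (A : Matrix (Fin n) (Fin n) ℝ) : Matrix (Fin n) (Fin n) ℂ :=
  A.map (algebraMap ℝ ℂ)

/-- For `k ≥ 1`: the number of Jordan blocks of size `k` with eigenvalue `z` of the complex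
matrix `A`, by the rank formula. -/
def numBlocks {n : ℕ} (A : Matrix (Fin n) (Fin n) ℂ) (z : ℂ) (k : ℕ) : ℤ :=
  (((A - Matrix.scalar (Fin n) z) ^ (k - 1)).rank : ℤ)
    - 2 * (((A - Matrix.scalar (Fin n) z) ^ k).rank : ℤ)
    + (((A - Matrix.scalar (Fin n) z) ^ (k + 1)).rank : ℤ)

/-- Two real matrices have the same algebraic type (Segre characteristic): a bijection between
their sets of distinct complex eigenvalues respects being real, commutes with complex conjugation,
and preserves the number of Jordan blocks of every size. -/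
def SameType {n : ℕ} (A B : Matrix (Fin n) (Fin n) ℝ) : Prop :=
  ∃ φ : spectrum ℂ (cx A) ≃ spectrum ℂ (cx B),
    (∀ z : spectrum ℂ (cx A), (z : ℂ).im = 0 ↔ (φ z : ℂ).im = 0) ∧
    (∀ z w : spectrum ℂ (cx A), (w : ℂ) = starRingEnd ℂ (z : ℂ) →
      (φ w : ℂ) = starRingEnd ℂ (φ z : ℂ)) ∧
    ∀ z : spectrum ℂ (cx A), ∀ k : ℕ, 1 ≤ k → numBlocks (cx A) z k = numBlocks (cx B) (φ z) k

/-- The type of `A` is realisable: some compactly supported Nijenhuis operator has this type at
every point of some domain. -/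
def Realisable {n : ℕ} (A : Matrix (Fin n) (Fin n) ℝ) : Prop :=
  ∃ (L : (Fin n → ℝ) → Matrix (Fin n) (Fin n) ℝ) (U : Set (Fin n → ℝ)),
    IsNijenhuis L ∧ HasCompactSupport L ∧ IsOpen U ∧ IsConnected U ∧ ∀ x ∈ U, SameType (L x) A

theorem sameType_of_conj {n : ℕ} {A B P : Matrix (Fin n) (Fin n) ℝ} (hP : IsUnit P)
    (h : B * P = P * A) : SameType B A := by
  have hP' : IsUnit (cx P) := hP.map (algebraMap ℝ ℂ).mapMatrix
  have h' : cx B * cx P = cx P * cx A := by
    unfold cx
    rw [← Matrix.map_mul, ← Matrix.map_mul, h]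
  obtain ⟨u, hu⟩ := hP'
  have hB : cx B = u * cx A * (↑u⁻¹ : Matrix (Fin n) (Fin n) ℂ) := by
    rw [hu, ← h', mul_assoc, ← hu, Units.mul_inv, mul_one]
  have hsp : spectrum ℂ (cx B) = spectrum ℂ (cx A) := by
    rw [hB]; exact spectrum.units_conjugate
  have hrank : ∀ z : ℂ, ∀ k : ℕ, ((cx B - Matrix.scalar (Fin n) z) ^ k).rank =
      ((cx A - Matrix.scalar (Fin n) z) ^ k).rank := by
    intro z k
    have h1 : (cx B - Matrix.scalar (Fin n) z) * u = u * (cx A - Matrix.scalar (Fin n) z) := by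
      rw [sub_mul, mul_sub, hu, h', (Matrix.scalar_commute z (fun r => mul_comm z r) (cx P)).eq]
    have h2 : (cx B - Matrix.scalar (Fin n) z) ^ k * (u : Matrix (Fin n) (Fin n) ℂ) =
        u * (cx A - Matrix.scalar (Fin n) z) ^ k := by
      induction k with
      | zero => simp
      | succ k ih => rw [pow_succ', mul_assoc, ih, ← mul_assoc, h1, mul_assoc, ← pow_succ']
    have hdet : IsUnit (u : Matrix (Fin n) (Fin n) ℂ).det :=
      (Matrix.isUnit_iff_isUnit_det _).mp u.isUnit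
    rw [← Matrix.rank_mul_eq_left_of_isUnit_det _ ((cx B - Matrix.scalar (Fin n) z) ^ k) hdet, h2,
      Matrix.rank_mul_eq_right_of_isUnit_det _ _ hdet]
  refine ⟨Equiv.setCongr hsp, ?_, ?_, ?_⟩
  · intro z; rfl
  · intro z w hzw; exact hzw
  · intro z k _
    unfold numBlocks
    simp only [Equiv.setCongr_apply, hrank]

/-- A matrix all of whose complex eigenvalues are real occurs, up to conjugation and with its
eigenvalues, at all points of a domain. -/
theorem sufficiency {n : ℕ} (hn : 1 ≤ n) (A : Matrix (Fin n) (Fin n) ℝ)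
    (hA : ∀ z ∈ spectrum ℂ (cx A), z.im = 0) :
    ∃ (L : (Fin n → ℝ) → Matrix (Fin n) (Fin n) ℝ) (U : Set (Fin n → ℝ)),
      IsNijenhuis L ∧ HasCompactSupport L ∧ IsOpen U ∧ IsConnected U ∧
      ∀ x ∈ U, ∃ P : Matrix (Fin n) (Fin n) ℝ, IsUnit P ∧ L x * P = P * A := by
  obtain ⟨K, hK, hKs, hKt, x₀, r, hr, hball⟩ := Nij.suff hn A hA
  have happ : ∀ x v, (LinearMap.toMatrix' (K x : (Fin n → ℝ) →ₗ[ℝ] (Fin n → ℝ))).mulVec v
      = K x v := by
    intro x v
    rw [← Matrix.toLin'_apply, Matrix.toLin'_toMatrix']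
    rfl
  refine ⟨fun x => LinearMap.toMatrix' (K x : (Fin n → ℝ) →ₗ[ℝ] (Fin n → ℝ)),
    Metric.ball x₀ r, ⟨?_, ?_⟩, ?_, Metric.isOpen_ball, ?_, ?_⟩
  · intro i j
    have h1 : ContDiff ℝ ∞ fun x => K x (Pi.single j 1) :=
      hK.clm_apply contDiff_const
    have h2 := (contDiff_pi.mp h1) i
    simpa [LinearMap.toMatrix'_apply] using h2
  · intro v w hv hw x
    have h1 := Nij.torsion_eq (hK.differentiable (by simp) x)
      (hv.differentiable (by simp) x) (hw.differentiable (by simp) x)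
    rw [hKt] at h1
    unfold torsion app
    rw [← Matrix.mulVec_mulVec]
    simp only [happ]
    exact h1
  · refine hKs.mono ?_
    intro x hx hx'
    apply hx
    simp only [hx']
    simp
  · exact ⟨⟨x₀, Metric.mem_ball_self hr⟩, (convex_ball x₀ r).isPreconnected⟩
  · intro x hx
    obtain ⟨g, hg⟩ := hball x hx
    refine ⟨LinearMap.toMatrix' (g : (Fin n → ℝ) →ₗ[ℝ] (Fin n → ℝ)), ?_, ?_⟩
    · refine ⟨⟨LinearMap.toMatrix' (g : (Fin n → ℝ) →ₗ[ℝ] (Fin n → ℝ)),
        LinearMap.toMatrix' (g.symm : (Fin n → ℝ) →ₗ[ℝ] (Fin n → ℝ)), ?_, ?_⟩, rfl⟩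
      · rw [← LinearMap.toMatrix'_comp]
        simp
      · rw [← LinearMap.toMatrix'_comp]
        simp
    · conv_rhs => rw [← LinearMap.toMatrix'_toLin' A]
      rw [← LinearMap.toMatrix'_comp, ← LinearMap.toMatrix'_comp]
      congr 1
      ext v i
      have := congrFun (hg (Pi.single v 1)) i
      simpa using this

/-- A compactly supported Nijenhuis operator has only real eigenvalues. -/
theorem necessity {n : ℕ} {L : (Fin n → ℝ) → Matrix (Fin n) (Fin n) ℝ} (hN : IsNijenhuis L)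
    (hs : HasCompactSupport L) (x : Fin n → ℝ) {z : ℂ} (hz : z ∈ spectrum ℂ (cx (L x))) :
    z.im = 0 := by
  let K : (Fin n → ℝ) → (Fin n → ℝ) →L[ℝ] (Fin n → ℝ) := fun y =>
    LinearMap.toContinuousLinearMap (Matrix.toLin' (L y))
  have happ : ∀ y v, K y v = (L y).mulVec v := by
    intro y v
    simp [K]
  have hK : ContDiff ℝ ∞ K := by
    rw [contDiff_clm_apply_iff]
    intro v
    rw [contDiff_pi]
    intro i
    have h1 : (fun y => K y v i) = fun y => ∑ j, L y i j * v j := by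
      funext y
      rw [happ]
      rfl
    rw [h1]
    exact ContDiff.sum fun j _ => (hN.1 i j).mul contDiff_const
  have hKs : HasCompactSupport K := by
    refine hs.mono ?_
    intro y hy hy'
    apply hy
    simp only [K, hy']
    simp
  have ht : ∀ y v w, Nij.tors K y v w = 0 := by
    intro y v w
    have h1 := Nij.torsion_eq (L := K) (V := fun _ => v) (W := fun _ => w) (x := y)
      (hK.differentiable (by simp) y) (differentiableAt_const _) (differentiableAt_const _)
    rw [← h1]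
    have h2 := hN.2 (fun _ => v) (fun _ => w) contDiff_const contDiff_const y
    unfold torsion app at h2
    rw [← Matrix.mulVec_mulVec] at h2
    simp only [happ]
    exact h2
  refine Nij.all_real_pi hK hKs ht (x := x) (z := z) ?_
  have h3 : Nij.chc (K x) = (cx (L x)).charpoly := by
    unfold Nij.chc Nij.chp cx
    have h4 : ((K x : (Fin n → ℝ) →L[ℝ] (Fin n → ℝ)) : (Fin n → ℝ) →ₗ[ℝ] (Fin n → ℝ)) =
        Matrix.toLin' (L x) := rfl
    rw [h4, Matrix.charpoly_toLin']
    exact (Matrix.charpoly_map (L x) _).symm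
  rw [h3]
  exact Matrix.mem_spectrum_iff_isRoot_charpoly.mp hz

/-- **Main theorem.** For `n ≥ 1` the algebraic type of a real `n × n` matrix `A` is realisable
if and only if all complex eigenvalues of `A` are real. Moreover, in this case there are a
compactly supported Nijenhuis operator `L` on `ℝⁿ` and a domain `U` such that `L x` is conjugate
to `A` (by a real matrix) for every `x ∈ U`. -/
theorem result (n : ℕ) (hn : 1 ≤ n) (A : Matrix (Fin n) (Fin n) ℝ) :
    (Realisable A ↔ ∀ z ∈ spectrum ℂ (cx A), z.im = 0) ∧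
    ((∀ z ∈ spectrum ℂ (cx A), z.im = 0) →
      ∃ (L : (Fin n → ℝ) → Matrix (Fin n) (Fin n) ℝ) (U : Set (Fin n → ℝ)),
        IsNijenhuis L ∧ HasCompactSupport L ∧ IsOpen U ∧ IsConnected U ∧
        ∀ x ∈ U, ∃ P : Matrix (Fin n) (Fin n) ℝ, IsUnit P ∧ L x * P = P * A) := by
  refine ⟨⟨?_, ?_⟩, sufficiency hn A⟩
  · rintro ⟨L, U, hN, hs, -, hU, hT⟩ z hz
    obtain ⟨x, hx⟩ := hU.nonempty
    obtain ⟨φ, h1, -, -⟩ := hT x hx
    obtain ⟨w, hw⟩ := φ.surjective ⟨z, hz⟩
    have h2 := (h1 w).mp (necessity hN hs x w.2)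
    rwa [hw] at h2
  · intro hA
    obtain ⟨L, U, h1, h2, h3, h4, h5⟩ := sufficiency hn A hA
    refine ⟨L, U, h1, h2, h3, h4, ?_⟩
    intro x hx
    obtain ⟨P, hP, hPA⟩ := h5 x hx
    exact sameType_of_conj hP hPA

end

end Pool.Agent.Results.MP_17a4b7_gt.NijenhuisTypes
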